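import Mathlib

/-!
# MP_267066_co : two-set sumsets covering all pairwise sums of basis vectors

If `T_n = {e_i + e_j : i ≤ j} ⊆ B₀ + B₁` with `B₀, B₁ ⊆ ℚⁿ` finite and `n ≥ 1`, then
`|B₀| + |B₁| ≥ 2n`.

Proof.  Consider the bipartite graph with vertex classes `B₀`, `B₁`, in which `u ∈ B₀` is joined to
`v ∈ B₁` if `u + v` is `e_i + e_j` with `i, j ∈ S`, and let `W S` be the span of the vectors
`δ_u - δ_v` over its edges.  Adding one index to a nonempty `S` increases the dimension of `W S` by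
at least two, so `dim W S ≥ 2|S| - 1`; and `W S` lies in the hyperplane of vectors with sum zero.
-/

namespace Pool.Agent.Results.MP_267066_co.PairSums

open scoped Pointwise

variable {n : ℕ}

/-- `T_n = {e_i + e_j}`, including `2 e_i`. -/
def T (n : ℕ) : Set (Fin n → ℚ) :=
  {x | ∃ i j : Fin n, x = Pi.single i 1 + Pi.single j 1}

/-- The sums `e_i + e_j` with `i, j ∈ S`. -/
def TS (S : Finset (Fin n)) : Set (Fin n → ℚ) :=
  {x | ∃ i ∈ S, ∃ j ∈ S, x = Pi.single i 1 + Pi.single j 1}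

/-- The edge vector `δ_u - δ_v`. -/
noncomputable def edge {B₀ B₁ : Finset (Fin n → ℚ)} (u : B₀) (v : B₁) : (B₀ ⊕ B₁) → ℚ :=
  Pi.single (Sum.inl u) 1 - Pi.single (Sum.inr v) 1

/-- The span of the edge vectors with labels in `TS S`. -/
noncomputable def W (B₀ B₁ : Finset (Fin n → ℚ)) (S : Finset (Fin n)) :
    Submodule ℚ ((B₀ ⊕ B₁) → ℚ) :=
  Submodule.span ℚ {w | ∃ (u : B₀) (v : B₁), (u : Fin n → ℚ) + (v : Fin n → ℚ) ∈ TS S ∧ w = edge u v}

/-- The functional given by a function on the vertices. -/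
noncomputable def fn {B₀ B₁ : Finset (Fin n → ℚ)} (f : (B₀ ⊕ B₁) → ℚ) :
    ((B₀ ⊕ B₁) → ℚ) →ₗ[ℚ] ℚ :=
  ∑ x, f x • LinearMap.proj x

theorem fn_edge {B₀ B₁ : Finset (Fin n → ℚ)} (f : (B₀ ⊕ B₁) → ℚ) (u : B₀) (v : B₁) :
    fn f (edge u v) = f (Sum.inl u) - f (Sum.inr v) := by
  classical
  unfold fn edge
  simp only [LinearMap.sum_apply, LinearMap.smul_apply, LinearMap.proj_apply, Pi.sub_apply,
    smul_eq_mul, mul_sub, Finset.sum_sub_distrib, Pi.single_apply, mul_ite, mul_one, mul_zero,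
    Finset.sum_ite_eq', Finset.mem_univ, if_true]

theorem fn_zero_of_const {B₀ B₁ : Finset (Fin n → ℚ)} {S : Finset (Fin n)} (f : (B₀ ⊕ B₁) → ℚ)
    (hf : ∀ (u : B₀) (v : B₁), (u : Fin n → ℚ) + (v : Fin n → ℚ) ∈ TS S →
      f (Sum.inl u) = f (Sum.inr v)) (w : (B₀ ⊕ B₁) → ℚ) (hw : w ∈ W B₀ B₁ S) : fn f w = 0 := by
  have : W B₀ B₁ S ≤ LinearMap.ker (fn f) := by
    unfold W
    rw [Submodule.span_le]
    rintro w ⟨u, v, huv, rfl⟩
    rw [SetLike.mem_coe, LinearMap.mem_ker, fn_edge, hf u v huv, sub_self]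
  exact LinearMap.mem_ker.1 (this hw)

/-- The level function. -/
def lev (B₀ B₁ : Finset (Fin n → ℚ)) (i : Fin n) : (B₀ ⊕ B₁) → ℚ
  | Sum.inl u => (u : Fin n → ℚ) i
  | Sum.inr v => -(v : Fin n → ℚ) i

theorem TS_apply {S : Finset (Fin n)} {i : Fin n} (hi : i ∉ S) {x : Fin n → ℚ} (hx : x ∈ TS S) :
    x i = 0 := by
  obtain ⟨j, hj, k, hk, rfl⟩ := hx
  have h1 : j ≠ i := fun h => hi (h ▸ hj)
  have h2 : k ≠ i := fun h => hi (h ▸ hk)
  simp [Pi.single_apply, h1.symm, h2.symm]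

theorem lev_const {B₀ B₁ : Finset (Fin n → ℚ)} {S : Finset (Fin n)} {i : Fin n} (hi : i ∉ S)
    (u : B₀) (v : B₁) (h : (u : Fin n → ℚ) + (v : Fin n → ℚ) ∈ TS S) :
    lev B₀ B₁ i (Sum.inl u) = lev B₀ B₁ i (Sum.inr v) := by
  have := TS_apply hi h
  simp only [Pi.add_apply] at this
  simp only [lev]
  linarith

theorem W_mono {B₀ B₁ : Finset (Fin n → ℚ)} {S S' : Finset (Fin n)} (h : S ⊆ S') :
    W B₀ B₁ S ≤ W B₀ B₁ S' := by
  apply Submodule.span_mono
  rintro w ⟨u, v, ⟨i, hi, j, hj, hij⟩, rfl⟩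
  exact ⟨u, v, ⟨i, h hi, j, h hj, hij⟩, rfl⟩

theorem step {B₀ B₁ : Finset (Fin n → ℚ)} (hT : T n ⊆ (B₀ : Set (Fin n → ℚ)) + (B₁ : Set _))
    (S : Finset (Fin n)) (hS : S.Nonempty) (i : Fin n) (hi : i ∉ S) :
    Module.finrank ℚ (W B₀ B₁ S) + 2 ≤ Module.finrank ℚ (W B₀ B₁ (insert i S)) := by
  classical
  obtain ⟨j, hj⟩ := hS
  have hji : j ≠ i := fun h => hi (h ▸ hj)
  obtain ⟨u₁', hu₁, v₁', hv₁, h₁⟩ := hT ⟨i, j, rfl⟩
  obtain ⟨u₂', hu₂, v₂', hv₂, h₂⟩ := hT ⟨i, i, rfl⟩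
  let u₁ : B₀ := ⟨u₁', hu₁⟩
  let v₁ : B₁ := ⟨v₁', hv₁⟩
  let u₂ : B₀ := ⟨u₂', hu₂⟩
  let v₂ : B₁ := ⟨v₂', hv₂⟩
  have a₁ : u₁' i + v₁' i = 1 := by
    have := congrFun h₁ i
    simpa [Pi.single_apply, hji.symm] using this
  have a₂ : u₂' i + v₂' i = 2 := by
    have := congrFun h₂ i
    simp only [Pi.add_apply, Pi.single_eq_same] at this
    linarith
  have l₁ : fn (lev B₀ B₁ i) (edge u₁ v₁) = 1 := by
    rw [fn_edge]; simp only [lev, u₁, v₁]; linarith
  have l₂ : fn (lev B₀ B₁ i) (edge u₂ v₂) = 2 := by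
    rw [fn_edge]; simp only [lev, u₂, v₂]; linarith
  have l₀ : ∀ w ∈ W B₀ B₁ S, fn (lev B₀ B₁ i) w = 0 :=
    fun w hw => fn_zero_of_const _ (fun u v h => lev_const hi u v h) w hw
  -- first strict inclusion
  set W₁ : Submodule ℚ ((B₀ ⊕ B₁) → ℚ) := W B₀ B₁ S ⊔ Submodule.span ℚ {edge u₁ v₁} with hW₁
  have s₁ : W B₀ B₁ S < W₁ := by
    rw [SetLike.lt_iff_le_and_exists]
    refine ⟨le_sup_left, edge u₁ v₁, ?_, ?_⟩
    · exact Submodule.mem_sup_right (Submodule.mem_span_singleton_self _)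
    · intro h
      have := l₀ _ h
      rw [l₁] at this
      norm_num at this
  have s₂ : W₁ < W B₀ B₁ (insert i S) := by
    rw [SetLike.lt_iff_le_and_exists]
    refine ⟨?_, edge u₂ v₂, ?_, ?_⟩
    · rw [hW₁, sup_le_iff]
      refine ⟨W_mono (Finset.subset_insert _ _), ?_⟩
      rw [Submodule.span_singleton_le_iff_mem]
      apply Submodule.subset_span
      exact ⟨u₁, v₁, ⟨i, Finset.mem_insert_self _ _, j, Finset.mem_insert_of_mem hj, h₁⟩, rfl⟩
    · apply Submodule.subset_span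
      exact ⟨u₂, v₂, ⟨i, Finset.mem_insert_self _ _, i, Finset.mem_insert_self _ _, h₂⟩, rfl⟩
    · intro h
      rw [hW₁, Submodule.mem_sup] at h
      obtain ⟨w, hw, z, hz, hwz⟩ := h
      rw [Submodule.mem_span_singleton] at hz
      obtain ⟨a, rfl⟩ := hz
      have ha : a = 2 := by
        have h3 := congrArg (fn (lev B₀ B₁ i)) hwz
        rw [map_add, map_smul, l₀ w hw, l₁, l₂] at h3
        simpa using h3
      subst ha
      -- the component of `u₁`
      let R : (B₀ ⊕ B₁) → (B₀ ⊕ B₁) → Prop := fun x y =>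
        ∃ (u : B₀) (v : B₁), (u : Fin n → ℚ) + (v : Fin n → ℚ) ∈ TS S ∧
          x = Sum.inl u ∧ y = Sum.inr v
      let f : (B₀ ⊕ B₁) → ℚ := fun x => if Relation.EqvGen R (Sum.inl u₁) x then 1 else 0
      have hf : ∀ (u : B₀) (v : B₁), (u : Fin n → ℚ) + (v : Fin n → ℚ) ∈ TS S →
          f (Sum.inl u) = f (Sum.inr v) := by
        intro u v huv
        have hR : Relation.EqvGen R (Sum.inl u) (Sum.inr v) :=
          Relation.EqvGen.rel _ _ ⟨u, v, huv, rfl, rfl⟩
        have hiff : Relation.EqvGen R (Sum.inl u₁) (Sum.inl u) ↔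
            Relation.EqvGen R (Sum.inl u₁) (Sum.inr v) :=
          ⟨fun h => Relation.EqvGen.trans _ _ _ h hR,
            fun h => Relation.EqvGen.trans _ _ _ h (Relation.EqvGen.symm _ _ hR)⟩
        simp only [f, hiff]
      have h3 := congrArg (fn f) hwz
      rw [map_add, map_smul, fn_zero_of_const f hf w hw, fn_edge, fn_edge] at h3
      have hfu : f (Sum.inl u₁) = 1 := by
        simp only [f]
        rw [if_pos (Relation.EqvGen.refl _)]
      have hrange : ∀ x, f x = 0 ∨ f x = 1 := by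
        intro x
        simp only [f]
        split_ifs
        · right; rfl
        · left; rfl
      rw [hfu] at h3
      have hv : f (Sum.inr v₁) = 1 := by
        rcases hrange (Sum.inr v₁) with h4 | h4
        · exfalso
          rw [h4] at h3
          rcases hrange (Sum.inl u₂) with h5 | h5 <;> rcases hrange (Sum.inr v₂) with h6 | h6 <;>
            rw [h5, h6] at h3 <;> norm_num at h3
        · exact h4
      have hconn : Relation.EqvGen R (Sum.inl u₁) (Sum.inr v₁) := by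
        by_contra hcon
        simp only [f] at hv
        rw [if_neg hcon] at hv
        norm_num at hv
      have hlev : ∀ x y, Relation.EqvGen R x y → lev B₀ B₁ i x = lev B₀ B₁ i y := by
        intro x y hxy
        induction hxy with
        | rel x y h =>
          obtain ⟨u, v, huv, rfl, rfl⟩ := h
          exact lev_const hi u v huv
        | refl x => rfl
        | symm x y _ ih => exact ih.symm
        | trans x y z _ _ ih1 ih2 => exact ih1.trans ih2
      have h7 := hlev _ _ hconn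
      simp only [lev, u₁, v₁] at h7
      linarith
  have f₁ := Submodule.finrank_lt_finrank_of_lt s₁
  have f₂ := Submodule.finrank_lt_finrank_of_lt s₂
  omega

theorem base {B₀ B₁ : Finset (Fin n → ℚ)} (hT : T n ⊆ (B₀ : Set (Fin n → ℚ)) + (B₁ : Set _))
    (i : Fin n) : 1 ≤ Module.finrank ℚ (W B₀ B₁ {i}) := by
  classical
  obtain ⟨u', hu, v', hv, h⟩ := hT ⟨i, i, rfl⟩
  let u : B₀ := ⟨u', hu⟩
  let v : B₁ := ⟨v', hv⟩
  have hmem : edge u v ∈ W B₀ B₁ {i} := by
    apply Submodule.subset_span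
    exact ⟨u, v, ⟨i, Finset.mem_singleton_self _, i, Finset.mem_singleton_self _, h⟩, rfl⟩
  have hne : edge u v ≠ 0 := by
    intro h0
    have := congrFun h0 (Sum.inl u)
    simp [edge] at this
  rw [Nat.one_le_iff_ne_zero]
  intro h0
  rw [Submodule.finrank_eq_zero] at h0
  rw [h0, Submodule.mem_bot] at hmem
  exact hne hmem

theorem dim_lower {B₀ B₁ : Finset (Fin n → ℚ)}
    (hT : T n ⊆ (B₀ : Set (Fin n → ℚ)) + (B₁ : Set _)) (S : Finset (Fin n)) (hS : S.Nonempty) :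
    2 * S.card ≤ Module.finrank ℚ (W B₀ B₁ S) + 1 := by
  classical
  induction hS using Finset.Nonempty.cons_induction with
  | singleton i =>
    have := base hT i
    rw [Finset.card_singleton]
    omega
  | cons i S hi hS ih =>
    have := step hT S hS i hi
    rw [Finset.cons_eq_insert, Finset.card_insert_of_notMem hi]
    omega

/-- **Main result** (MP_267066_co, Q1): if `T_n ⊆ B₀ + B₁` with `B₀, B₁ ⊆ ℚⁿ` finite and `n ≥ 1`,
then `|B₀| + |B₁| ≥ 2n`. -/
theorem result (n : ℕ) (hn : 1 ≤ n) (B₀ B₁ : Finset (Fin n → ℚ))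
    (hT : T n ⊆ (B₀ : Set (Fin n → ℚ)) + (B₁ : Set (Fin n → ℚ))) :
    2 * n ≤ B₀.card + B₁.card := by
  classical
  have hpos : (Finset.univ : Finset (Fin n)).Nonempty := ⟨⟨0, hn⟩, Finset.mem_univ _⟩
  have h1 := dim_lower hT Finset.univ hpos
  rw [Finset.card_univ, Fintype.card_fin] at h1
  obtain ⟨u', hu, v', hv, -⟩ := hT ⟨⟨0, hn⟩, ⟨0, hn⟩, rfl⟩
  have h2 : W B₀ B₁ Finset.univ < ⊤ := by
    rw [SetLike.lt_iff_le_and_exists]
    refine ⟨le_top, Pi.single (Sum.inl ⟨u', hu⟩) 1, Submodule.mem_top, fun h => ?_⟩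
    have h3 := fn_zero_of_const (fun _ => 1) (fun _ _ _ => rfl) _ h
    unfold fn at h3
    simp only [LinearMap.sum_apply, LinearMap.smul_apply, LinearMap.proj_apply,
      smul_eq_mul, one_mul, Pi.single_apply, Finset.sum_ite_eq', Finset.mem_univ, if_true] at h3
    norm_num at h3
  have h3 := Submodule.finrank_lt_finrank_of_lt h2
  rw [finrank_top, Module.finrank_fintype_fun_eq_card, Fintype.card_sum, Fintype.card_coe,
    Fintype.card_coe] at h3
  omega

end Pool.Agent.Results.MP_267066_co.PairSums
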